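import Pool.Agent.Helper67.NX2.DefsB

/-!
# NX2-B7 : basic facts on cell averages
-/

set_option autoImplicit false

open Finset
open scoped BigOperators ComplexConjugate

namespace Pool.Agent.Helper67.NX2

open Pool.Agent.Helper57.NX

noncomputable section

private theorem sum_period (M a : ℕ) (Φ : ℕ → ℝ) (hper : ∀ x, Φ (x + M) = Φ x) :
    ∑ x ∈ Ico a (a + M), Φ x = ∑ x ∈ range M, Φ x := by
  have hp : Function.Periodic Φ M := hper
  rw [← Nat.image_Ico_mod a M, Finset.sum_image]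
  · refine Finset.sum_congr rfl fun x _ => ?_
    exact (hp.map_mod_nat x).symm
  · intro x hx y hy hxy
    exact Nat.mod_injOn_Ico a M hx hy hxy

private theorem sum_periods (M a : ℕ) (Φ : ℕ → ℝ) (hper : ∀ x, Φ (x + M) = Φ x) (q : ℕ) :
    ∑ x ∈ Ico a (a + M * q), Φ x = q * ∑ x ∈ range M, Φ x := by
  induction q with
  | zero => simp
  | succ q ih =>
    rw [← Finset.sum_Ico_consecutive Φ (Nat.le_add_right a (M * q))
      (show a + M * q ≤ a + M * (q + 1) by
        have : M * (q + 1) = M * q + M := by ring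
        omega), ih]
    have h1 : a + M * (q + 1) = (a + M * q) + M := by ring
    rw [h1, sum_period M (a + M * q) Φ hper]
    push_cast
    ring

theorem periodic_avg (M b j : ℕ) (hM : 1 ≤ M) (Φ : ℕ → ℝ) (B : ℝ) (hΦ : ∀ x, |Φ x| ≤ B)
    (hper : ∀ x, Φ (x + M) = Φ x) :
    |(∑ x ∈ bl b j, Φ x) / 2 ^ b - 𝔼 x ∈ range M, Φ x| ≤ 2 * M * B / 2 ^ b := by
  have hB : 0 ≤ B := (abs_nonneg _).trans (hΦ 0)
  have hN : (0 : ℝ) < 2 ^ b := by positivity
  have hMr : (0 : ℝ) < M := by exact_mod_cast hM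
  set a := 2 ^ b * j with ha
  set q := 2 ^ b / M with hq
  set r := 2 ^ b % M with hr
  have hqr : M * q + r = 2 ^ b := Nat.div_add_mod _ _
  have hrM : r < M := Nat.mod_lt _ hM
  set S := ∑ x ∈ range M, Φ x with hS
  have hSb : |S| ≤ M * B := by
    refine (Finset.abs_sum_le_sum_abs _ _).trans ?_
    refine (Finset.sum_le_card_nsmul _ _ B fun x _ => hΦ x).trans ?_
    rw [card_range, nsmul_eq_mul]
  have hsplit : ∑ x ∈ bl b j, Φ x = q * S + ∑ x ∈ Ico (a + M * q) (a + 2 ^ b), Φ x := by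
    unfold bl
    have h1 : 2 ^ b * (j + 1) = a + 2 ^ b := by rw [ha]; ring
    rw [h1, ← ha, ← sum_periods M a Φ hper q]
    exact (Finset.sum_Ico_consecutive Φ (Nat.le_add_right _ _) (by omega)).symm
  have hrest : |∑ x ∈ Ico (a + M * q) (a + 2 ^ b), Φ x| ≤ r * B := by
    refine (Finset.abs_sum_le_sum_abs _ _).trans ?_
    refine (Finset.sum_le_card_nsmul _ _ B fun x _ => hΦ x).trans ?_
    rw [Nat.card_Ico, nsmul_eq_mul]
    have : a + 2 ^ b - (a + M * q) = r := by omega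
    rw [this]
  have hE : 𝔼 x ∈ range M, Φ x = S / M := by
    rw [Finset.expect_eq_sum_div_card, card_range]
  have hqrR : (M : ℝ) * q + r = 2 ^ b := by exact_mod_cast hqr
  have hmain : (∑ x ∈ bl b j, Φ x) / 2 ^ b - 𝔼 x ∈ range M, Φ x =
      ((∑ x ∈ Ico (a + M * q) (a + 2 ^ b), Φ x) - r * (S / M)) / 2 ^ b := by
    rw [hE, hsplit]
    have h2 : S / M = (2 ^ b * (S / M)) / 2 ^ b := by field_simp
    rw [h2, ← sub_div]
    congr 1
    rw [← h2, ← hqrR]
    field_simp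
    ring
  rw [hmain, abs_div, abs_of_pos hN]
  refine div_le_div_of_nonneg_right ?_ hN.le
  have h3 : |(r : ℝ) * (S / M)| ≤ r * B := by
    rw [abs_mul, abs_of_nonneg (Nat.cast_nonneg r), abs_div, abs_of_pos hMr]
    refine mul_le_mul_of_nonneg_left ?_ (Nat.cast_nonneg r)
    rw [div_le_iff₀ hMr, mul_comm]
    exact hSb
  have h4 : (r : ℝ) ≤ M := by exact_mod_cast hrM.le
  calc |(∑ x ∈ Ico (a + M * q) (a + 2 ^ b), Φ x) - r * (S / M)|
      ≤ |∑ x ∈ Ico (a + M * q) (a + 2 ^ b), Φ x| + |(r : ℝ) * (S / M)| := abs_sub _ _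
    _ ≤ r * B + r * B := add_le_add hrest h3
    _ = 2 * r * B := by ring
    _ ≤ 2 * M * B := by gcongr

private theorem card_fibre (M M' : ℕ) [NeZero M] (h : M' ∣ M) (hM' : 1 ≤ M') (ρ : ZMod M') :
    (univ.filter (fun x : ZMod M => ((x.val : ℕ) : ZMod M') = ρ)).card * M' = M := by
  haveI : NeZero M' := ⟨by omega⟩
  obtain ⟨t, ht⟩ := h
  have hM0 : M ≠ 0 := NeZero.ne M
  have ht0 : 0 < t := by
    rcases Nat.eq_zero_or_pos t with h0 | h0
    · rw [h0, mul_zero] at ht; exact absurd ht hM0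
    · exact h0
  have hlt : ∀ k < t, ρ.val + M' * k < M := by
    intro k hk
    have h1 := ZMod.val_lt ρ
    rw [ht]
    calc ρ.val + M' * k < M' + M' * k := by omega
      _ = M' * (k + 1) := by ring
      _ ≤ M' * t := Nat.mul_le_mul_left _ hk
  have hcard : (univ.filter (fun x : ZMod M => ((x.val : ℕ) : ZMod M') = ρ)).card = t := by
    have himg : univ.filter (fun x : ZMod M => ((x.val : ℕ) : ZMod M') = ρ) =
        (range t).image (fun k => ((ρ.val + M' * k : ℕ) : ZMod M)) := by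
      ext x
      simp only [mem_filter, mem_univ, true_and, mem_image, mem_range]
      constructor
      · intro hx
        have h2 : x.val % M' = ρ.val := by
          rw [← hx, ZMod.val_natCast]
        refine ⟨x.val / M', ?_, ?_⟩
        · rw [Nat.div_lt_iff_lt_mul hM', mul_comm, ← ht]
          exact ZMod.val_lt x
        · rw [← h2, Nat.mod_add_div, ZMod.natCast_zmod_val]
      · rintro ⟨k, hk, rfl⟩
        rw [ZMod.val_natCast, Nat.mod_eq_of_lt (hlt k hk)]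
        push_cast
        simp
    rw [himg, Finset.card_image_of_injOn, card_range]
    intro k hk l hl hkl
    have hk' : k < t := by simpa using hk
    have hl' : l < t := by simpa using hl
    have h3 := congrArg ZMod.val hkl
    simp only [ZMod.val_natCast] at h3
    rw [Nat.mod_eq_of_lt (hlt k hk'), Nat.mod_eq_of_lt (hlt l hl')] at h3
    exact Nat.eq_of_mul_eq_mul_left (show 0 < M' by omega) (by omega)
  rw [hcard, ht, mul_comm]

theorem fav_cell (F : ℕ → ℝ) (M M' b j : ℕ) [NeZero M] (h : M' ∣ M) (hM' : 1 ≤ M') (ρ : ZMod M') :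
    fav M' (cell F M b j) ρ = cell F M' b j ρ := by
  have hc := card_fibre M M' h hM' ρ
  have hM'r : (0 : ℝ) < M' := by exact_mod_cast hM'
  have hM0 : (0 : ℝ) < M := by exact_mod_cast Nat.pos_of_ne_zero (NeZero.ne M)
  have hcr : ((univ.filter (fun x : ZMod M => ((x.val : ℕ) : ZMod M') = ρ)).card : ℝ) * M' = M := by
    exact_mod_cast hc
  have hc0 : ((univ.filter (fun x : ZMod M => ((x.val : ℕ) : ZMod M') = ρ)).card : ℝ) ≠ 0 := by
    intro h0
    rw [h0, zero_mul] at hcr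
    exact hM0.ne hcr
  have hval : ∀ y : ℕ, (((y : ZMod M).val : ℕ) : ZMod M') = (y : ZMod M') := by
    intro y
    rw [ZMod.val_natCast, ZMod.natCast_eq_natCast_iff]
    exact (Nat.mod_modEq y M).of_dvd h
  unfold fav cell
  rw [Finset.expect_eq_sum_div_card, ← Finset.mul_sum, Finset.sum_comm]
  have hsum : ∀ y : ℕ, (∑ x ∈ univ.filter (fun x : ZMod M => ((x.val : ℕ) : ZMod M') = ρ),
      if (y : ZMod M) = x then F y else 0) = if (y : ZMod M') = ρ then F y else 0 := by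
    intro y
    rw [Finset.sum_ite_eq]
    simp only [mem_filter, mem_univ, true_and, hval]
  simp only [hsum]
  rw [div_eq_iff hc0]
  have h5 : (M : ℝ) / 2 ^ b = M' / 2 ^ b *
      ((univ.filter (fun x : ZMod M => ((x.val : ℕ) : ZMod M') = ρ)).card : ℝ) := by
    rw [div_mul_eq_mul_div, ← hcr, mul_comm]
  rw [h5]
  ring

theorem Fm_nonneg {F : ℕ → ℝ} (hF : ∀ x, 0 ≤ F x) (M b x : ℕ) : 0 ≤ Fm F M b x := by
  unfold Fm cell
  refine mul_nonneg (by positivity) (Finset.sum_nonneg fun y _ => ?_)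
  split_ifs
  · exact hF y
  · exact le_rfl

theorem Fm_support {F : ℕ → ℝ} {z b : ℕ} (hb : b ≤ z) (hF : ∀ x, 2 ^ z ≤ x → F x = 0) (M x : ℕ)
    (hx : 2 ^ z ≤ x) : Fm F M b x = 0 := by
  unfold Fm cell
  rw [Finset.sum_eq_zero, mul_zero]
  intro y hy
  have h1 : 2 ^ b * (x / 2 ^ b) ≤ y := (mem_Ico.1 hy).1
  have h2 : 2 ^ z = 2 ^ b * 2 ^ (z - b) := by rw [← pow_add]; congr 1; omega
  have h3 : 2 ^ (z - b) ≤ x / 2 ^ b := by
    rw [Nat.le_div_iff_mul_le (by positivity), mul_comm, ← h2]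
    exact hx
  have h4 : 2 ^ z ≤ y := by
    rw [h2]
    exact (Nat.mul_le_mul_left _ h3).trans h1
  rw [hF y h4, ite_self]

private theorem crt_iff (K r1 : ℕ) (S : Finset ℕ) (hS : ∀ p ∈ S, p.Prime ∧ ¬ p ∣ K) (y κ : ℕ) :
    y ≡ κ [MOD K * ∏ p ∈ S, p ^ r1] ↔ y ≡ κ [MOD K] ∧ ∀ p ∈ S, y ≡ κ [MOD p ^ r1] := by
  classical
  induction S using Finset.induction_on with
  | empty => simp
  | insert p S hp ih =>
    have ih' := ih fun q hq => hS q (mem_insert_of_mem hq)
    have hpp := hS p (mem_insert_self p S)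
    have hcop : Nat.Coprime (p ^ r1) (K * ∏ q ∈ S, q ^ r1) := by
      refine Nat.Coprime.pow_left _ ?_
      rw [Nat.Prime.coprime_iff_not_dvd hpp.1, hpp.1.dvd_mul]
      rintro (h1 | h1)
      · exact hpp.2 h1
      · obtain ⟨q, hq, hpq⟩ := (Prime.dvd_finset_prod_iff hpp.1.prime _).1 h1
        have h2 := (Nat.prime_dvd_prime_iff_eq hpp.1 (hS q (mem_insert_of_mem hq)).1).1
          (hpp.1.dvd_of_dvd_pow hpq)
        exact hp (h2 ▸ hq)
    rw [Finset.prod_insert hp]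
    have h3 : K * (p ^ r1 * ∏ q ∈ S, q ^ r1) = p ^ r1 * (K * ∏ q ∈ S, q ^ r1) := by ring
    rw [h3, ← Nat.modEq_and_modEq_iff_modEq_mul hcop, ih', Finset.forall_mem_insert]
    tauto

theorem DS_expand (F : ℕ → ℝ) (K r1 b j : ℕ) (S : Finset ℕ) (κ : ℕ) (hK : 1 ≤ K)
    (hS : ∀ p ∈ S, p.Prime ∧ ¬ p ∣ K) :
    ∑ S' ∈ S.powerset, DS F K r1 b j S' κ (fun _ => κ) =
      cell F (K * ∏ p ∈ S, p ^ r1) b j (κ : ZMod (K * ∏ p ∈ S, p ^ r1)) := by
  classical
  have _ := hK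
  unfold DS cell
  rw [← Finset.sum_div, Finset.sum_comm, div_mul_eq_mul_div, Finset.mul_sum]
  congr 1
  refine Finset.sum_congr rfl fun y _ => ?_
  rw [← Finset.mul_sum]
  have h1 : ∑ S' ∈ S.powerset, ∏ p ∈ S',
      ((if y ≡ κ [MOD p ^ r1] then (p : ℝ) ^ r1 else 0) - 1) =
      ∏ p ∈ S, (if y ≡ κ [MOD p ^ r1] then (p : ℝ) ^ r1 else 0) := by
    rw [← Finset.prod_one_add]
    refine Finset.prod_congr rfl fun p _ => ?_
    ring
  rw [h1]
  by_cases hy : y ≡ κ [MOD K * ∏ p ∈ S, p ^ r1]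
  · have h2 := (crt_iff K r1 S hS y κ).1 hy
    rw [if_pos ((ZMod.natCast_eq_natCast_iff _ _ _).2 hy), if_pos h2.1]
    have h3 : ∏ p ∈ S, (if y ≡ κ [MOD p ^ r1] then (p : ℝ) ^ r1 else 0) =
        ∏ p ∈ S, (p : ℝ) ^ r1 := Finset.prod_congr rfl fun p hp => by rw [if_pos (h2.2 p hp)]
    rw [h3]
    push_cast
    ring
  · rw [if_neg (fun h => hy ((ZMod.natCast_eq_natCast_iff _ _ _).1 h)), mul_zero]
    by_cases hyK : y ≡ κ [MOD K]
    · have h4 : ∃ p ∈ S, ¬ y ≡ κ [MOD p ^ r1] := by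
        by_contra hcon
        push Not at hcon
        exact hy ((crt_iff K r1 S hS y κ).2 ⟨hyK, hcon⟩)
      obtain ⟨p, hp, hpy⟩ := h4
      rw [Finset.prod_eq_zero hp (by rw [if_neg hpy]), mul_zero]
    · rw [if_neg hyK, mul_zero, zero_mul]

end

end Pool.Agent.Helper67.NX2
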